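import Pool.Agent.H998.HK.Spec3

/-!
# Task REP2 of project HK (helper998): infinite-order vanishing representation
-/

set_option autoImplicit false

noncomputable section

namespace Pool.Agent.H980.HK

open MeasureTheory Filter Topology Set
open scoped ENNReal NNReal RealInnerProductSpace
open Pool.Agent.H998.HK

/-! ### measurability -/

lemma measurable_yukR (κ : ℝ) : Measurable (yukR κ) := by
  unfold yukR
  fun_prop

lemma measurable_yuk (κ : ℝ) : Measurable (yuk κ) := by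
  unfold yuk
  exact (measurable_yukR κ).comp (by fun_prop)

lemma measurable_iter (κ : ℝ) (n : ℕ) : Measurable (iteratedDeriv n (yukR κ)) := by
  cases n with
  | zero => rw [iteratedDeriv_zero]; exact measurable_yukR κ
  | succ n => rw [iteratedDeriv_succ]; exact measurable_deriv _

lemma measurable_tc (κ : ℝ) (j : ℕ) (x : E3) : Measurable (fun y => tc κ j x y) := by
  unfold tc
  refine Finset.measurable_sum _ fun p _ => ?_
  refine Measurable.mul (Measurable.mul (Measurable.div_const ?_ _) measurable_const) ?_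
  · exact (measurable_iter κ (j - p)).comp (by fun_prop)
  · fun_prop

/-! ### homogeneity -/

lemma tc_smul (κ : ℝ) (j : ℕ) (t : ℝ) (x y : E3) : tc κ j (t • x) y = t ^ j * tc κ j x y := by
  unfold tc
  rw [Finset.mul_sum]
  refine Finset.sum_congr rfl fun p hp => ?_
  have hp' : 2 * p ≤ j := by
    have := Finset.mem_range.1 hp
    omega
  have h1 : t ^ j = (t ^ 2) ^ p * t ^ (j - 2 * p) := by
    rw [← pow_mul, ← pow_add]
    congr 1
    omega
  rw [norm_smul, inner_smul_left, mul_pow, Real.norm_eq_abs, sq_abs, mul_pow, h1]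
  have h2 : (-2 * ((starRingEnd ℝ) t * ⟪x, y⟫)) = t * (-2 * ⟪x, y⟫) := by
    simp
    ring
  rw [h2, mul_pow]
  ring

/-! ### power series identity -/

lemma coeff_zero_of_hasSum (a : ℕ → ℝ) (δ : ℝ) (hδ : 0 < δ)
    (h : ∀ t : ℝ, |t| < δ → HasSum (fun j => t ^ j * a j) 0) (j : ℕ) : a j = 0 := by
  have h1 : HasFPowerSeriesAt (0 : ℝ → ℝ) (FormalMultilinearSeries.ofScalars ℝ a) 0 := by
    rw [hasFPowerSeriesAt_iff]
    rw [Metric.eventually_nhds_iff]
    refine ⟨δ, hδ, fun t ht => ?_⟩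
    have := h t (by simpa [Real.dist_eq] using ht)
    simpa [FormalMultilinearSeries.coeff_ofScalars] using this
  have h2 := h1.eq_zero
  have h3 : (FormalMultilinearSeries.ofScalars ℝ a).coeff j = 0 := by
    rw [h2]
    rfl
  rwa [FormalMultilinearSeries.coeff_ofScalars] at h3

/-! ### the Yukawa kernel -/

lemma yuk_eq (κ : ℝ) (x : E3) : yuk κ x = Real.exp (-(κ * ‖x‖)) / (4 * Real.pi * ‖x‖) := by
  unfold yuk yukR
  rw [Real.sqrt_sq (norm_nonneg x)]

lemma yuk_nonneg (κ : ℝ) (x : E3) : 0 ≤ yuk κ x := by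
  rw [yuk_eq]
  positivity

lemma yuk_le {κ δ : ℝ} (hκ : 0 ≤ κ) (hδ : 0 < δ) {x : E3} (hx : δ ≤ ‖x‖) :
    yuk κ x ≤ 1 / (4 * Real.pi * δ) := by
  rw [yuk_eq]
  have h1 : Real.exp (-(κ * ‖x‖)) ≤ 1 := by
    rw [Real.exp_le_one_iff]
    have := mul_nonneg hκ (norm_nonneg x)
    linarith
  have hpi := Real.pi_pos
  gcongr

lemma continuousAt_yuk (κ : ℝ) {x : E3} (hx : x ≠ 0) : ContinuousAt (yuk κ) x := by
  have h : yuk κ = fun x => Real.exp (-(κ * ‖x‖)) / (4 * Real.pi * ‖x‖) := by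
    funext z
    exact yuk_eq κ z
  rw [h]
  have hn : 4 * Real.pi * ‖x‖ ≠ 0 := by
    have := Real.pi_pos
    have := norm_pos_iff.2 hx
    positivity
  refine ContinuousAt.div (by fun_prop) (by fun_prop) hn

lemma integrable_yuk {κ : ℝ} (hκ : 0 < κ) : Integrable (yuk κ) := by
  have h : yuk κ = fun x : E3 => (fun r : ℝ => Real.exp (-(κ * r)) / (4 * Real.pi * r)) ‖x‖ := by
    funext z
    exact yuk_eq κ z
  rw [h]
  refine (integrable_fun_norm_addHaar (μ := (volume : Measure E3))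
    (f := fun r : ℝ => Real.exp (-(κ * r)) / (4 * Real.pi * r))).2 ?_
  have hdim : Module.finrank ℝ E3 = 3 := by simp [E3]
  rw [hdim]
  have h1 : IntegrableOn (fun x : ℝ => (1 / (4 * Real.pi)) *
      (x ^ (1 : ℝ) * Real.exp (-κ * x ^ (1 : ℝ)))) (Ioi 0) :=
    (integrableOn_rpow_mul_exp_neg_mul_rpow (by norm_num) one_pos hκ).const_mul _
  refine h1.congr_fun (fun r hr => ?_) measurableSet_Ioi
  have hr' : (0 : ℝ) < r := hr
  have hpi := Real.pi_pos
  simp only [Real.rpow_one, smul_eq_mul, neg_mul]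
  field_simp

/-! ### the expansion coefficients -/

section main

variable {κ ρ r0 : ℝ} {F : E3 → ℝ}

/-- `U_j(x) = ∫ tc_j(x,y) F(y) dy` -/
def U (κ : ℝ) (F : E3 → ℝ) (j : ℕ) (x : E3) : ℝ := ∫ y, tc κ j x y * F y

/-- `W(x) = ∫ G(x - y) F(y) dy` -/
def W (κ : ℝ) (F : E3 → ℝ) (x : E3) : ℝ := ∫ y, yuk κ (x - y) * F y

lemma U_smul (j : ℕ) (t : ℝ) (x : E3) : U κ F j (t • x) = t ^ j * U κ F j x := by
  unfold U
  rw [← integral_const_mul]
  congr 1
  funext y
  rw [tc_smul]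
  ring

lemma exists_factor {a ρ : ℝ} (hρ : 0 < ρ) (ha : 0 ≤ a) (h : a < ρ) :
    ∃ c : ℝ, 1 < c ∧ c * a < ρ := by
  refine ⟨2 * ρ / (ρ + a), ?_, ?_⟩
  · rw [lt_div_iff₀ (by linarith)]
    linarith
  · rw [div_mul_eq_mul_div, div_lt_iff₀ (by linarith)]
    nlinarith

lemma tcF_bound (hT : S_TAYLOR) (hκ : 0 ≤ κ) {c : ℝ} (hc : 0 < c) {x : E3} (hx : c * ‖x‖ < ρ)
    (hF0 : ∀ y : E3, ‖y‖ < ρ → F y = 0) (j : ℕ) (y : E3) :
    ‖tc κ j x y * F y‖ ≤ (c ^ j)⁻¹ * (1 / (4 * Real.pi * (ρ - c * ‖x‖)) * |F y|) := by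
  by_cases hy : ‖y‖ < ρ
  · rw [hF0 y hy]
    simp
  · push Not at hy
    have h1 := (hT κ hκ x y).2 c hc (lt_of_lt_of_le hx hy) j
    rw [norm_mul, Real.norm_eq_abs, Real.norm_eq_abs, ← mul_assoc]
    refine mul_le_mul_of_nonneg_right (h1.trans ?_) (abs_nonneg _)
    rw [div_eq_mul_one_div]
    have hpi := Real.pi_pos
    have h2 : 0 < ρ - c * ‖x‖ := by linarith
    refine mul_le_mul_of_nonneg_left ?_ (by positivity)
    refine one_div_le_one_div_of_le (by positivity) ?_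
    have h3 : ρ - c * ‖x‖ ≤ ‖y‖ - c * ‖x‖ := by linarith
    nlinarith

lemma integrable_tcF (hT : S_TAYLOR) (hκ : 0 ≤ κ) (hρ : 0 < ρ) (hF : Integrable F)
    (hF0 : ∀ y : E3, ‖y‖ < ρ → F y = 0) (j : ℕ) (x : E3) :
    Integrable (fun y => tc κ j x y * F y) := by
  obtain ⟨c, hc, hcx⟩ : ∃ c : ℝ, 0 < c ∧ c * ‖x‖ < ρ := by
    refine ⟨ρ / (2 * (‖x‖ + 1)), by positivity, ?_⟩
    rw [div_mul_eq_mul_div, div_lt_iff₀ (by positivity)]
    have := norm_nonneg x
    nlinarith
  refine Integrable.mono' (((hF.abs.const_mul (1 / (4 * Real.pi * (ρ - c * ‖x‖)))).const_mul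
    ((c ^ j)⁻¹))) ?_ (ae_of_all _ fun y => tcF_bound hT hκ hc hcx hF0 j y)
  exact ((measurable_tc κ j x).aestronglyMeasurable).mul hF.aestronglyMeasurable

lemma hasSum_U (hT : S_TAYLOR) (hκ : 0 ≤ κ) (hρ : 0 < ρ) (hF : Integrable F)
    (hF0 : ∀ y : E3, ‖y‖ < ρ → F y = 0) {x : E3} (hx : ‖x‖ < ρ) :
    HasSum (fun j => U κ F j x) (W κ F x) := by
  obtain ⟨c, hc, hcx⟩ := exists_factor hρ (norm_nonneg x) hx
  have hc0 : 0 < c := by linarith
  have h1 := hasSum_integral_of_summable_integral_norm (μ := (volume : Measure E3))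
    (F := fun j y => tc κ j x y * F y) (fun j => integrable_tcF hT hκ hρ hF hF0 j x) ?_
  · have h2 : (∫ y, ∑' j, tc κ j x y * F y) = W κ F x := by
      unfold W
      congr 1
      funext y
      by_cases hy : ‖y‖ < ρ
      · rw [hF0 y hy]
        simp
      · push Not at hy
        rw [tsum_mul_right, ((hT κ hκ x y).1 (lt_of_lt_of_le hx hy)).tsum_eq]
    rw [h2] at h1
    exact h1
  · have hs : Summable fun j : ℕ => (c ^ j)⁻¹ * ∫ y, (1 / (4 * Real.pi * (ρ - c * ‖x‖)) * |F y|) := by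
      refine Summable.mul_right _ ?_
      simp_rw [← inv_pow]
      exact summable_geometric_of_lt_one (by positivity) (inv_lt_one_of_one_lt₀ hc)
    refine Summable.of_nonneg_of_le (fun j => integral_nonneg fun y => norm_nonneg _)
      (fun j => ?_) hs
    rw [← integral_const_mul]
    refine integral_mono_of_nonneg (ae_of_all _ fun y => norm_nonneg _)
      ((hF.abs.const_mul _).const_mul _) (ae_of_all _ fun y => ?_)
    exact tcF_bound hT hκ hc0 hcx hF0 j y

lemma continuousOn_W (hκ : 0 ≤ κ) (hF : Integrable F)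
    (hF0 : ∀ y : E3, ‖y‖ < ρ → F y = 0) : ContinuousOn (W κ F) (Metric.ball 0 ρ) := by
  intro x₀ hx₀
  refine ContinuousAt.continuousWithinAt ?_
  have hx₀' : ‖x₀‖ < ρ := by simpa using hx₀
  set δ := (ρ - ‖x₀‖) / 2 with hδ
  have hδ0 : 0 < δ := by
    rw [hδ]
    linarith
  have key : ∀ x ∈ Metric.ball x₀ δ, ∀ y : E3, ¬ ‖y‖ < ρ → δ ≤ ‖x - y‖ := by
    intro x hx y hy
    push Not at hy
    have h1 : ‖x‖ < ‖x₀‖ + δ := by
      have h2 : ‖x - x₀‖ < δ := by simpa [dist_eq_norm] using hx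
      have h3 : ‖x‖ ≤ ‖x₀‖ + ‖x - x₀‖ := by
        calc ‖x‖ = ‖x₀ + (x - x₀)‖ := by congr 1; abel
          _ ≤ _ := norm_add_le _ _
      linarith
    have h2 : ‖y‖ ≤ ‖x‖ + ‖x - y‖ := by
      calc ‖y‖ = ‖x - (x - y)‖ := by congr 1; abel
        _ ≤ _ := norm_sub_le _ _
    linarith
  have hW : W κ F = fun x => ∫ y, yuk κ (x - y) * F y := rfl
  rw [hW]
  refine continuousAt_of_dominated (bound := fun y => 1 / (4 * Real.pi * δ) * |F y|) ?_ ?_
    (hF.abs.const_mul _) ?_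
  · refine Eventually.of_forall fun x => ?_
    exact ((measurable_yuk κ).comp (by fun_prop)).aestronglyMeasurable.mul hF.aestronglyMeasurable
  · filter_upwards [Metric.ball_mem_nhds x₀ hδ0] with x hx
    refine ae_of_all _ fun y => ?_
    by_cases hy : ‖y‖ < ρ
    · rw [hF0 y hy]
      simp
    · rw [norm_mul, Real.norm_eq_abs, Real.norm_eq_abs, abs_of_nonneg (yuk_nonneg κ _)]
      exact mul_le_mul_of_nonneg_right (yuk_le hκ hδ0 (key x hx y hy)) (abs_nonneg _)
  · refine ae_of_all _ fun y => ?_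
    by_cases hy : ‖y‖ < ρ
    · rw [hF0 y hy]
      simp only [mul_zero]
      exact continuousAt_const
    · have h1 := key x₀ (Metric.mem_ball_self hδ0) y hy
      have h2 : x₀ - y ≠ 0 := by
        intro h
        rw [h, norm_zero] at h1
        linarith
      refine ContinuousAt.mul ?_ continuousAt_const
      exact ContinuousAt.comp (f := fun x => x - y) (g := yuk κ) (continuousAt_yuk κ h2)
        (by fun_prop)

lemma U_eq_zero (hT : S_TAYLOR) (hκ : 0 ≤ κ) (hρ : 0 < ρ) (hF : Integrable F)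
    (hF0 : ∀ y : E3, ‖y‖ < ρ → F y = 0)
    (hW : ∀ᵐ x : E3, ‖x‖ < ρ → W κ F x = 0) (j : ℕ) (x : E3) : U κ F j x = 0 := by
  have h1 : EqOn (W κ F) (fun _ => 0) (Metric.ball 0 ρ) := by
    refine Measure.eqOn_open_of_ae_eq (μ := (volume : Measure E3)) ?_ Metric.isOpen_ball
      (continuousOn_W hκ hF hF0) continuousOn_const
    rw [Filter.EventuallyEq, ae_restrict_iff' measurableSet_ball]
    filter_upwards [hW] with z hz hz'
    exact hz (by simpa using hz')
  refine coeff_zero_of_hasSum (fun j => U κ F j x) (ρ / (‖x‖ + 1)) (by positivity) ?_ j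
  intro t ht
  have h2 : ‖t • x‖ < ρ := by
    rw [norm_smul, Real.norm_eq_abs]
    rw [lt_div_iff₀ (by positivity)] at ht
    have := abs_nonneg t
    nlinarith [norm_nonneg x]
  have h3 := hasSum_U hT hκ hρ hF hF0 h2
  rw [h1 (by simpa using h2)] at h3
  simpa [U_smul] using h3

end main

theorem t_REP2 : S_REP2 := by
  intro hT hY κ ρ r0 u F D hκ hρ hρr hu hD hF hWG hWE hu0 hD0 hF0 m
  have hr0 : 0 < r0 := hρ.trans hρr
  have h1 := hY κ r0 u F D hκ hr0 hu hD hF hWG hWE (fun x hx => hu0 x (Or.inr hx))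
    (fun i x hx => hD0 i x (Or.inr hx)) (fun x hx => hF0 x (Or.inr hx))
  have hF0' : ∀ y : E3, ‖y‖ < ρ → F y = 0 := fun y hy => hF0 y (Or.inl hy)
  have hW : ∀ᵐ x : E3, ‖x‖ < ρ → W κ F x = 0 := by
    filter_upwards [h1] with x hx hx'
    unfold W
    rw [← hx]
    exact hu0 x (Or.inl hx')
  have hU := U_eq_zero hT hκ.le hρ hF hF0' hW
  have hconv : ∀ᵐ x : E3, Integrable (fun y => yuk κ (x - y) * F y) := by
    have h := Integrable.ae_convolution_exists (ContinuousLinearMap.mul ℝ ℝ) hF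
      (integrable_yuk hκ)
    filter_upwards [h] with x hx
    have hx' : Integrable (fun y => F y * yuk κ (x - y)) := hx
    refine hx'.congr (ae_of_all _ fun y => ?_)
    simp only
    ring
  filter_upwards [h1, hconv] with x hx hx'
  rw [hx]
  have h2 : (fun y => Km κ m x y * F y) = fun y => yuk κ (x - y) * F y -
      ∑ j ∈ Finset.range m, tc κ j x y * F y := by
    funext y
    unfold Km
    rw [sub_mul, Finset.sum_mul]
  rw [h2, integral_sub hx' (integrable_finsetSum _ fun j _ =>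
    integrable_tcF hT hκ.le hρ hF hF0' j x), integral_finsetSum _ fun j _ =>
    integrable_tcF hT hκ.le hρ hF hF0' j x]
  have h3 : ∑ j ∈ Finset.range m, ∫ y, tc κ j x y * F y = 0 :=
    Finset.sum_eq_zero fun j _ => hU j x
  rw [h3, sub_zero]

end Pool.Agent.H980.HK
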